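import Pool.Agent.TH737.HEN.Main

/-!
# Explicit bounds, polynomial in the degree, for the periodic points of Hénon maps

`f(x, y) = (y, F(y) - δ x)` is a generalized Hénon map of degree `d` over a number field `K`, and `T`
is a finite set of finite places containing those at which `f` does not have potentially good
reduction.

Proof. Let `S` be the set of all coordinates of the members of the cycles of the `K`-rational
periodic points; it is closed for the recursion `x_{n+1} + δ x_{n-1} = F(x_n)`. At an infinite place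
(in a coordinate in which `F` is monic) `S` lies in a disc of radius `16 B` or in at most `d` discs of
radius `4 B`, `B^(d-1) = 1 + |δ|`, around the zeros of `F - F(s)`; at a finite place it lies in at
most `d` discs of radius `B`, `B^(d-1) = max(1, |δ|)`, and in one disc of radius `1` if the reduction
is potentially good. Cut the discs at the infinite places into small cells. By the product formula
two different elements of `S` do not lie in the same cell at all infinite places and in the same disc
at all finite ones.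
-/

set_option autoImplicit false

open Finset Polynomial NumberField Pool.Agent.TH737.HEN

namespace Pool.Agent.Results.MP_0e6b5f_nt.ExplicitBadPlaces

universe u

/-- `f(x, y) = (y, F(y) - δ x)` is potentially monic and integral at the finite place `v`: `δ` is
`v`-integral and, for an absolute value `w` on the algebraic closure extending `v` and an affine
coordinate `x = l x' + b` over the algebraic closure, the map becomes
`(x', y') ↦ (y', g(y') - δ x')` with a polynomial `g` with `w`-integral coefficients whose leading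
coefficient is a `w`-adic unit. (Potentially good reduction at `v` is this together with
`v(δ) = 1`.) -/
def PotIntegral {K : Type u} [Field K] [NumberField K] (v : FinitePlace K) (F : K[X]) (δ : K) :
    Prop :=
  v δ ≤ 1 ∧ ∃ w : AbsoluteValue (AlgebraicClosure K) ℝ,
    (∀ x : K, w (algebraMap K (AlgebraicClosure K) x) = v x) ∧
    ∃ (g : (AlgebraicClosure K)[X]) (l b : AlgebraicClosure K), l ≠ 0 ∧
      (∀ j, w (g.coeff j) ≤ 1) ∧ w g.leadingCoeff = 1 ∧
      C l * g = (F.map (algebraMap K (AlgebraicClosure K))).comp (C l * X + C b) -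
        C ((1 + algebraMap K (AlgebraicClosure K) δ) * b)

/-- **Explicit bounds for the `K`-rational periodic points of generalized Hénon maps.** Let `K` be
a number field, `f(x, y) = (y, F(y) - δ x)` of degree `d ≥ 2` over `K` and `T` a finite set of finite
places of `K` such that `f` is potentially monic and integral outside `T` (for instance, has
potentially good reduction outside `T`). Then `f` has at most
`(d^#T ∏_{v ∈ T} max(1, |δ|_v)^(1/(d-1)) ∏_w (36 (1 + |δ|_w)^(1/(d-1)))^[K_w : ℝ] d)²` periodic
points in `K²`, where `w` runs over the infinite places. If `δ` is a root of unity (for instance for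
area preserving maps, `δ = 1`), that is `|δ| ≤ 1` at all places, there are at most
`(72^[K : ℚ] d^(r + #T))²` periodic points in `K²`, where `r` is the number of infinite places. -/
theorem result (K : Type u) [Field K] [NumberField K] (d : ℕ) (hd : 2 ≤ d) (F : K[X]) (δ : K)
    (hF : F.natDegree = d) (T : Finset (FinitePlace K))
    (hT : ∀ v : FinitePlace K, v ∉ T → PotIntegral v F δ) (Y : Finset (K × K))
    (hY : ∀ P ∈ Y, ∃ n : ℕ, 0 < n ∧ (fun P : K × K => (P.2, F.eval P.2 - δ * P.1))^[n] P = P) :
    (Y.card : ℝ) ≤ (d ^ T.card * (∏ v ∈ T, max 1 (v δ)) ^ ((d : ℝ) - 1)⁻¹ *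
      ∏ w : InfinitePlace K, (36 * (1 + w δ) ^ ((d : ℝ) - 1)⁻¹) ^ w.mult * d) ^ 2 ∧
    ((∀ v : FinitePlace K, v δ ≤ 1) → (∀ w : InfinitePlace K, w δ ≤ 1) →
      Y.card ≤ (72 ^ Module.finrank ℚ K * d ^ (Fintype.card (InfinitePlace K) + T.card)) ^ 2) := by
  have h1 := points_card d hd F δ hF T hT Y hY
  refine ⟨h1, fun hfin hinf => ?_⟩
  have hd1 : (1 : ℝ) ≤ (d : ℝ) - 1 := by
    have : (2 : ℝ) ≤ d := by exact_mod_cast hd
    linarith
  have h0 : ∏ v ∈ T, max 1 (v δ) = (1 : ℝ) :=
    prod_eq_one fun v _ => max_eq_left (hfin v)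
  have h2 : ∏ w : InfinitePlace K, ((36 * (1 + w δ) ^ ((d : ℝ) - 1)⁻¹) ^ w.mult * d : ℝ) ≤
      72 ^ Module.finrank ℚ K * (d : ℝ) ^ (Fintype.card (InfinitePlace K)) := by
    have e : (72 : ℝ) ^ Module.finrank ℚ K * (d : ℝ) ^ (Fintype.card (InfinitePlace K)) =
        ∏ w : InfinitePlace K, ((72 : ℝ) ^ w.mult * d) := by
      rw [prod_mul_distrib, prod_const, card_univ, ← InfinitePlace.sum_mult_eq,
        ← prod_pow_eq_pow_sum]
    rw [e]
    refine prod_le_prod (fun w _ => ?_) fun w _ => ?_
    · have := apply_nonneg w δ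
      positivity
    · have h3 : 0 ≤ w δ := apply_nonneg w δ
      have h4 : (1 + w δ) ^ ((d : ℝ) - 1)⁻¹ ≤ 2 := by
        calc (1 + w δ) ^ ((d : ℝ) - 1)⁻¹ ≤ (2 : ℝ) ^ ((d : ℝ) - 1)⁻¹ :=
              Real.rpow_le_rpow (by linarith) (by linarith [hinf w]) (by positivity)
          _ ≤ (2 : ℝ) ^ (1 : ℝ) :=
              Real.rpow_le_rpow_of_exponent_le (by norm_num) (inv_le_one_of_one_le₀ hd1)
          _ = 2 := Real.rpow_one 2
      have h5 : 0 ≤ (1 + w δ) ^ ((d : ℝ) - 1)⁻¹ := Real.rpow_nonneg (by linarith) _
      have h6 : 36 * (1 + w δ) ^ ((d : ℝ) - 1)⁻¹ ≤ 72 := by linarith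
      exact mul_le_mul_of_nonneg_right (pow_le_pow_left₀ (by linarith) h6 _) (Nat.cast_nonneg d)
  rw [h0, Real.one_rpow, mul_one] at h1
  have hpos : 0 ≤ ∏ w : InfinitePlace K,
      ((36 * (1 + w δ) ^ ((d : ℝ) - 1)⁻¹) ^ w.mult * d : ℝ) := by
    refine prod_nonneg fun w _ => ?_
    have := apply_nonneg w δ
    positivity
  have h3 : (Y.card : ℝ) ≤ (((72 ^ Module.finrank ℚ K *
      d ^ (Fintype.card (InfinitePlace K) + T.card)) ^ 2 : ℕ) : ℝ) := by
    calc (Y.card : ℝ) ≤ (d ^ T.card * ∏ w : InfinitePlace K,
          ((36 * (1 + w δ) ^ ((d : ℝ) - 1)⁻¹) ^ w.mult * d : ℝ)) ^ 2 := h1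
      _ ≤ (d ^ T.card * (72 ^ Module.finrank ℚ K *
          (d : ℝ) ^ (Fintype.card (InfinitePlace K)))) ^ 2 := by
          refine pow_le_pow_left₀ (mul_nonneg (by positivity) hpos) ?_ 2
          exact mul_le_mul_of_nonneg_left h2 (by positivity)
      _ = _ := by
        push_cast
        rw [pow_add]
        ring
  exact_mod_cast h3

end Pool.Agent.Results.MP_0e6b5f_nt.ExplicitBadPlaces
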