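import Pool.Agent.TH737.HEN.Main
import Pool.Agent.TH737.HEN.Sharp

/-!
# Rational periodic points of Hénon maps: the sharp bound `d^2`

`f(x, y) = (y, F(y) - δ x)` is a generalized Hénon map of degree `d` over a number field `K`.
Over the rational numbers, if `f` has potentially good reduction everywhere and `d ≥ 6`, then `f`
has at most `d^2` rational periodic points, and this is attained for every `d`. Over imaginary
quadratic fields this holds for `d ≥ 34`.

Proof. Let `S` be the set of all coordinates of the members of the cycles of the `K`-rational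
periodic points; it is closed for the recursion `x_{n+1} + δ x_{n-1} = F(x_n)`. Potentially good
reduction and the product formula give `|s - t|^(d-1) |a_d| ≥ 1` for `s ≠ t` in `S`. If `S` has more
than `d` elements, Lagrange interpolation at `d + 1` of them (with the two extreme ones) bounds
`|a_d|` by a sum in which all values of `F` are within `(1 + |δ|)/2` times the diameter of a constant;
this contradicts the separation.
-/

set_option autoImplicit false

open Finset Polynomial NumberField Pool.Agent.TH737.HEN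

namespace Pool.Agent.Results.MP_0e6b5f_nt.IntegralMapsSharp

universe u

/-- The set of the periodic points in `K²` of the Hénon map `f(x, y) = (y, F(y) - δ x)`. -/
def perPoints {K : Type*} [Field K] (F : K[X]) (δ : K) : Set (K × K) :=
  {P | ∃ n : ℕ, 0 < n ∧ (fun P : K × K => (P.2, F.eval P.2 - δ * P.1))^[n] P = P}

/-- `f(x, y) = (y, F(y) - δ x)` is potentially monic and integral at the finite place `v`: `δ` is
`v`-integral and, for an absolute value `w` on the algebraic closure extending `v` and an affine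
coordinate `x = l x' + b` over the algebraic closure, the map becomes
`(x', y') ↦ (y', g(y') - δ x')` with a polynomial `g` with `w`-integral coefficients whose leading
coefficient is a `w`-adic unit. (Potentially good reduction at `v` is this together with
`v(δ) = 1`.) -/
def PotIntegral {K : Type u} [Field K] [NumberField K] (v : FinitePlace K) (F : K[X]) (δ : K) :
    Prop :=
  v δ ≤ 1 ∧ ∃ w : AbsoluteValue (AlgebraicClosure K) ℝ,
    (∀ x : K, w (algebraMap K (AlgebraicClosure K) x) = v x) ∧
    ∃ (g : (AlgebraicClosure K)[X]) (l b : AlgebraicClosure K), l ≠ 0 ∧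
      (∀ j, w (g.coeff j) ≤ 1) ∧ w g.leadingCoeff = 1 ∧
      C l * g = (F.map (algebraMap K (AlgebraicClosure K))).comp (C l * X + C b) -
        C ((1 + algebraMap K (AlgebraicClosure K) δ) * b)

lemma encard_le_of_finset {α : Type*} (s : Set α) (n : ℕ)
    (h : ∀ Y : Finset α, (∀ P ∈ Y, P ∈ s) → Y.card ≤ n) : s.encard ≤ n := by
  classical
  by_contra hcon
  push Not at hcon
  have h1 : ((n + 1 : ℕ) : ℕ∞) ≤ s.encard := by
    push_cast
    exact Order.add_one_le_of_lt hcon
  obtain ⟨t, hts, ht⟩ := Set.exists_subset_encard_eq h1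
  have hfin : t.Finite := Set.finite_of_encard_eq_coe ht
  have h2 := h hfin.toFinset (fun P hP => hts (by simpa using hP))
  have h3 : t.encard = (hfin.toFinset.card : ℕ∞) := hfin.encard_eq_coe_toFinset_card
  rw [h3] at ht
  have h4 : hfin.toFinset.card = n + 1 := by exact_mod_cast ht
  omega

lemma fac_ineq (d : ℕ) (hd : 6 ≤ d) : 2 ^ d < (d - 1).factorial := by
  induction d, hd using Nat.le_induction with
  | base => decide
  | succ d hd ih =>
    have h1 : d + 1 - 1 = (d - 1) + 1 := by omega
    rw [h1, Nat.factorial_succ, pow_succ]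
    have h2 : 2 ≤ d - 1 + 1 := by omega
    nlinarith

lemma geom_ineq (d : ℕ) (hd : 34 ≤ d) : 4 * ((d : ℝ) + 1) < (4 / 3 : ℝ) ^ (d - 16) := by
  induction d, hd using Nat.le_induction with
  | base => norm_num
  | succ d hd ih =>
    have h1 : d + 1 - 16 = (d - 16) + 1 := by omega
    rw [h1, pow_succ]
    push_cast
    have : (34 : ℝ) ≤ d := by exact_mod_cast hd
    nlinarith

/-- **The sharp bound `d²` for the periodic points of generalized Hénon maps
`f(x, y) = (y, F(y) - δ x)` of degree `d` with potentially good reduction everywhere.**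

1. Over `ℚ`, `δ = ±1`, potentially good reduction everywhere, `d ≥ 6`: at most `d²` rational
periodic points.
2. For every `d` and `δ = ±1` the bound `d²` is attained, by a monic polynomial with integer
coefficients.
3. The bound `d²` fails in the degrees 2, 3, 4: there are 8, 11, 18 rational periodic points for
`y² + y - 4`, `y³ - 5 y`, `y⁴ - 5 y² + 4` and `δ = 1`.
4. More generally, over `ℚ`, for `f` potentially monic and integral everywhere, any `d ≥ 2` and any
`δ`: at most `(k d)²` rational periodic points, if `(1 + |δ|) 2^(d-1) < k^(d-1) (d-1)!`.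
5. Over a field with one infinite place (an imaginary quadratic field), `|δ| = 1`, potentially
good reduction everywhere, `d ≥ 34`: at most `d²` periodic points in `K²`. -/
theorem result :
    (∀ (d : ℕ) (F : ℚ[X]) (δ : ℚ), 6 ≤ d → F.natDegree = d → (δ = 1 ∨ δ = -1) →
      (∀ v : FinitePlace ℚ, PotIntegral v F δ) →
      (perPoints F δ).encard ≤ ((d ^ 2 : ℕ) : ℕ∞)) ∧
    (∀ (d : ℕ) (δ : ℤ), (δ = 1 ∨ δ = -1) → ∃ F : ℤ[X], F.Monic ∧ F.natDegree = d ∧
      (∀ v : FinitePlace ℚ, PotIntegral v (F.map (Int.castRingHom ℚ)) (δ : ℚ)) ∧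
      ((d ^ 2 : ℕ) : ℕ∞) ≤ (perPoints (F.map (Int.castRingHom ℚ)) (δ : ℚ)).encard) ∧
    (((8 : ℕ) : ℕ∞) ≤ (perPoints (X ^ 2 + X - 4 : ℚ[X]) 1).encard ∧
      ((11 : ℕ) : ℕ∞) ≤ (perPoints (X ^ 3 - 5 * X : ℚ[X]) 1).encard ∧
      ((18 : ℕ) : ℕ∞) ≤ (perPoints (X ^ 4 - 5 * X ^ 2 + 4 : ℚ[X]) 1).encard) ∧
    (∀ (d k : ℕ) (F : ℚ[X]) (δ : ℚ), 2 ≤ d → 1 ≤ k → F.natDegree = d →
      (∀ v : FinitePlace ℚ, PotIntegral v F δ) →
      (1 + |δ|) * 2 ^ (d - 1) < k ^ (d - 1) * (d - 1).factorial →
      (perPoints F δ).encard ≤ (((k * d) ^ 2 : ℕ) : ℕ∞)) ∧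
    (∀ (K : Type u) [Field K] [NumberField K] (d : ℕ) (F : K[X]) (δ : K),
      Fintype.card (InfinitePlace K) = 1 → 34 ≤ d → F.natDegree = d →
      (∀ w : InfinitePlace K, w δ = 1) → (∀ v : FinitePlace K, PotIntegral v F δ) →
      (perPoints F δ).encard ≤ ((d ^ 2 : ℕ) : ℕ∞)) := by
  have key : ∀ (d k : ℕ) (F : ℚ[X]) (δ : ℚ), 2 ≤ d → 1 ≤ k → F.natDegree = d →
      (∀ v : FinitePlace ℚ, PotIntegral v F δ) →
      (1 + |δ|) * 2 ^ (d - 1) < k ^ (d - 1) * (d - 1).factorial →
      (perPoints F δ).encard ≤ (((k * d) ^ 2 : ℕ) : ℕ∞) := by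
    intro d k F δ hd hk hF h hs
    exact encard_le_of_finset _ _ fun Y hY => rat_points_card d hd F δ hF h k hk hs Y hY
  refine ⟨?_, ?_, ⟨?_, ?_, ?_⟩, key, ?_⟩
  · intro d F δ hd hF hδ h
    have h1 := key d 1 F δ (by omega) le_rfl hF h ?_
    · simpa using h1
    · have h2 : |δ| = 1 := by
        rcases hδ with rfl | rfl <;> simp
      rw [h2]
      have h3 : ((2 ^ d : ℕ) : ℚ) < ((d - 1).factorial : ℚ) := by exact_mod_cast fac_ineq d hd
      have h4 : (2 : ℚ) ^ d = 2 * 2 ^ (d - 1) := by
        rw [← pow_succ']; congr 1; omega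
      push_cast at h3
      rw [h4] at h3
      have h5 : (1 : ℚ) + 1 = 2 := by norm_num
      rw [h5]
      simpa using h3
  · intro d δ hδ
    exact ⟨polyT d, polyT_monic d, polyT_natDegree d,
      fun v => potInt_int v (polyT d) δ (polyT_monic d), polyT_points d δ hδ⟩
  · have h := ex2
    change _ ≤ {P : ℚ × ℚ | ∃ n : ℕ, 0 < n ∧ (henon (X ^ 2 + X - 4 : ℚ[X]) 1)^[n] P = P}.encard
    simpa using h
  · have h := ex3
    change _ ≤ {P : ℚ × ℚ | ∃ n : ℕ, 0 < n ∧ (henon (X ^ 3 - 5 * X : ℚ[X]) 1)^[n] P = P}.encard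
    simpa using h
  · have h := ex4
    change _ ≤ {P : ℚ × ℚ | ∃ n : ℕ, 0 < n ∧
      (henon (X ^ 4 - 5 * X ^ 2 + 4 : ℚ[X]) 1)^[n] P = P}.encard
    simpa using h
  · intro K _ _ d F δ hone hd hF hδ h
    refine encard_le_of_finset _ _ fun Y hY =>
      one_place_points_card hone d (by omega) F δ hF h (fun w => ?_) Y hY
    rw [hδ w]
    have := geom_ineq d hd
    linarith

end Pool.Agent.Results.MP_0e6b5f_nt.IntegralMapsSharp
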