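import Pool.Agent.TH377.Dyn.Henon
import Pool.Agent.TH377.Dyn.Box

/-!
# MP_0e6b5f_nt: the degrees of the periodic points of Hénon maps

Let `K` be a number field and `d ≥ 2`.  We consider the generalized Hénon maps

  `f(x, y) = (y, φ(y) - δ x)`,  `φ = (c₀ + c₁ y + … + c_d y^d) / b`,  `b, c₀, …, c_d ∈ O_K`.

We prove that for 100% of the vectors `(b, c₀, …, c_d)`, for ALL integral Jacobians `δ ∈ O_K` at once
(more generally, for all `δ ∈ O_K[1/D]`, where `D` is fixed), every periodic point `P` of `f` over the
algebraic closure has a degree `[K(P) : K]` that is divisible by `d`.  So `f` has no periodic points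
over ALL finite extensions `L` of `K` whose degree is not divisible by `d`; the degree of `L` is not
bounded.  In particular, this holds for the area preserving maps (`δ = 1`), and for all `L` of degree
less than `d`.  The exceptional vectors have density zero in boxes (with respect to any integral
basis), and in a stronger sense: for every `ε > 0` there is an ideal `I ≠ 0` such that they lie in at
most `ε #(O_K/I)^(d+2)` residue classes modulo `I`.

Proof.  Let `v` be a prime of `K` that divides `b` and not `D`, such that `F = c₀ + … + c_d y^d` is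
irreducible of degree `d` modulo `v`.  Let `w` be a place of `L` above `v`.  The second coordinates
of the members of the cycle of a periodic point form a periodic sequence with
`s_{k+2} = F(s_{k+1})/b - δ s_k`.  If a member of it is not integral at `w`, take one of maximal
absolute value; the next one is larger, because `b` is not a unit.  So all members are integral, and
`F(s_{k+1}) = b (s_{k+2} + δ s_k)` vanishes in the residue field of `w`.  So `d` divides the residue
degree `f(w|v)`, for every `w`, and by `∑ e(w|v) f(w|v) = [L : K]` it divides `[L : K]`.  Such a prime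
exists for almost all vectors, since the conditions hold for a proportion of at least
`(1/4d) (1/N v - 1/(N v)²)` of all vectors modulo `v²`, and the sum of the `1/N v` diverges.
-/

set_option autoImplicit false

open Polynomial NumberField Filter Topology

namespace Pool.Agent.Results.MP_0e6b5f_nt.PeriodicDegrees

universe u v w

/-- The polynomial `(c₁ + c₂ x + … + c_{d+1} x^d) / c₀` over `K`, for a vector `(c₀, …, c_{d+1})` of
integers of `K`. -/
noncomputable def poly {K : Type u} [Field K] {d : ℕ} (c : Fin (d + 2) → 𝓞 K) : K[X] :=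
  C ((c 0 : K)⁻¹) * ∑ i : Fin (d + 1), C (c i.succ : K) * X ^ (i : ℕ)

/-- The Hénon map `(x, y) ↦ (y, φ(y) - δ x)` of `L × L`, where `φ` and `δ` have coefficients in `K`
and `L` is an extension of `K`. -/
noncomputable def henon {K : Type u} (L : Type v) [Field K] [Field L] [Algebra K L] (φ : K[X])
    (δ : K) (P : L × L) : L × L :=
  (P.2, aeval P.2 φ - algebraMap K L δ * P.1)

/-- The element `δ` of `K` lies in `O_K[1/D]`. -/
def IntegralAway {K : Type u} [Field K] (D : 𝓞 K) (δ : K) : Prop :=
  ∃ (k : ℕ) (r : 𝓞 K), (D : K) ^ k * δ = r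

/-- The vectors `c = (b, c₀, …, c_d)` of integers of `K` that do not have the following property:
`b ≠ 0`, the polynomial `φ = (c₀ + … + c_d y^d) / b` has degree `d`, and for every `δ ∈ O_K[1/D]` and
every finite extension `L` of `K` such that the Hénon map `(x, y) ↦ (y, φ(y) - δ x)` has a periodic
point in `L × L`, the degree of `L` is divisible by `d`. -/
def Exceptional (K : Type u) [Field K] (D : 𝓞 K) (d : ℕ) : Set (Fin (d + 2) → 𝓞 K) :=
  {c | ¬ (c 0 ≠ 0 ∧ (poly c).natDegree = d ∧ ∀ δ : K, IntegralAway D δ →
    ∀ (L : Type v) [Field L] [Algebra K L] [FiniteDimensional K L] (P : L × L) (n : ℕ),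
      0 < n → (henon L (poly c) δ)^[n] P = P → d ∣ Module.finrank K L)}

/-- Density zero: for every `ε > 0` there is an ideal `I ≠ 0` such that `E` lies in at most
`ε #(O_K/I)ᴺ` residue classes modulo `I`. -/
def DensityZero {K : Type u} [Field K] {N : ℕ} (E : Set (Fin N → 𝓞 K)) : Prop :=
  ∀ ε : ℝ, 0 < ε → ∃ I : Ideal (𝓞 K), I ≠ ⊥ ∧
    (Set.ncard ((fun (t : Fin N → 𝓞 K) i => Ideal.Quotient.mk I (t i)) '' E) : ℝ) ≤
      ε * (Nat.card (𝓞 K ⧸ I) : ℝ) ^ N

/-- The vectors all of whose entries have coordinates of absolute value at most `H` in the integral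
basis `ω`. -/
def Box {K : Type u} [Field K] {J : Type w} (ω : Module.Basis J ℤ (𝓞 K)) (N H : ℕ) :
    Set (Fin N → 𝓞 K) :=
  {c | ∀ i j, |ω.repr (c i) j| ≤ (H : ℤ)}

section proof

open IsDedekindDomain Pool.Agent.TH377.Dyn Pool.Agent.TH377.Sup

lemma poly_natDegree {K : Type u} [Field K] [NumberField K] {d : ℕ} (c : Fin (d + 2) → 𝓞 K)
    (h0 : c 0 ≠ 0) (v : HeightOneSpectrum (𝓞 K)) (h : IrrMod v d fun i => c i.succ) :
    (poly c).natDegree = d := by
  have h1 : (∑ i : Fin (d + 1), C (c i.succ : K) * X ^ (i : ℕ) : K[X]) =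
      (num c).map (algebraMap (𝓞 K) K) := by
    rw [num, pol_map]
    rfl
  have h2 : ((c 0 : K)⁻¹) ≠ 0 := by
    rw [Ne, inv_eq_zero]
    exact_mod_cast h0
  rw [poly, natDegree_C_mul h2, h1,
    natDegree_map_eq_of_injective (FaithfulSMul.algebraMap_injective (𝓞 K) K)]
  exact (num_facts c v h).1

end proof

/-- **The degrees of the periodic points of Hénon maps.**  Let `K` be a number field, `d ≥ 2` and
`D ∈ O_K` nonzero.  For all vectors `(b, c₀, …, c_d)` of integers of `K` outside a set of density
zero, `φ = (c₀ + … + c_d y^d) / b` has degree `d`, and for all `δ ∈ O_K[1/D]`, the number `d` divides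
the degree over `K` of every finite extension `L` of `K` such that the Hénon map
`(x, y) ↦ (y, φ(y) - δ x)` has a periodic point in `L × L`. -/
theorem result (K : Type u) [Field K] [NumberField K] (d : ℕ) (hd : 2 ≤ d) (D : 𝓞 K)
    (hD : D ≠ 0) :
    DensityZero (Exceptional.{u, v} K D d) ∧
      ∀ (J : Type w) [Fintype J] (ω : Module.Basis J ℤ (𝓞 K)),
        Tendsto (fun H : ℕ => ((Exceptional.{u, v} K D d ∩ Box ω (d + 2) H).ncard : ℝ) /
          ((Box ω (d + 2) H).ncard : ℝ)) atTop (𝓝 0) := by
  have key : Pool.Agent.TH120.Sec.DZ (d + 2) (Exceptional.{u, v} K D d) := by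
    refine Pool.Agent.TH377.Dyn.DZ.mono (Pool.Agent.TH377.Dyn.dz_prime K d hd D hD) ?_
    intro c hc hex
    obtain ⟨v, hDv, h1, h2, h3⟩ := hex
    apply hc
    have h0 : c 0 ≠ 0 := by
      intro h0
      apply h2
      rw [h0]
      exact zero_mem _
    refine ⟨h0, poly_natDegree c h0 v h3, ?_⟩
    rintro δ ⟨k, r, hδ⟩ L _ _ _ P n hn hP
    have hL : NumberField L := NumberField.of_module_finite K L
    obtain ⟨g1, g2, g3⟩ := Pool.Agent.TH377.Dyn.num_facts c v h3
    have hmap : henon L (poly c) δ = fun Q : L × L => (Q.2, (algebraMap (𝓞 K) L (c 0))⁻¹ *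
        ((Pool.Agent.TH377.Dyn.num c).map (algebraMap (𝓞 K) L)).eval Q.2 -
          algebraMap K L δ * Q.1) := by
      funext Q
      rw [← Pool.Agent.TH377.Dyn.map_eq]
      rfl
    rw [hmap] at hP
    have hDk : D ^ k ∉ v.asIdeal := fun h => hDv (v.isPrime.mem_of_pow_mem k h)
    have := Pool.Agent.TH377.Dyn.henon_dvd v (c 0) h1 h0 (Pool.Agent.TH377.Dyn.num c)
      (by rw [g1]; omega) g2 g3 δ r (D ^ k) hDk (by rw [← hδ]; push_cast; rfl) P n hn hP
    rwa [g1] at this
  exact ⟨key, fun J _ ω => Pool.Agent.TH377.Dyn.box_tendsto _ key ω⟩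

end Pool.Agent.Results.MP_0e6b5f_nt.PeriodicDegrees
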