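import Pool.Agent.TH873.HI.C

/-!
# MP_0e6b5f_nt: uniform boundedness of the T-integral cycles of Hénon maps

Nothing is assumed about the reduction of the map at the places outside `T`: only the cycles which
are counted have to be integral there (or, more generally, to lie in a disc of radius
`|a_d|^(-1/(d-1))`, `a_d` the leading coefficient of `F`).
-/

set_option autoImplicit false

namespace Pool.Agent.Results.MP_0e6b5f_nt.TIntegralCycles

open Real NumberField Polynomial Pool.Agent.H951R3.PH

universe u

/-- The generalized Hénon map `f(x, y) = (y, F(y) - δ x)`. -/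
def henon {K : Type u} [Field K] (F : K[X]) (δ : K) (P : K × K) : K × K :=
  (P.2, F.eval P.2 - δ * P.1)

/-- `P` is a periodic point of `f`. -/
def Periodic {K : Type u} [Field K] (F : K[X]) (δ : K) (P : K × K) : Prop :=
  ∃ m : ℕ, 0 < m ∧ (henon F δ)^[m] P = P

/-- The size `s_w` of a Hénon map of degree `d` at `w`, an infinite place (with its multiplicity as
a factor) or an element of `T`. If `a X^d + ∑_{j ≤ d-2} c_j X^j` is the centred form of `F`, then
`siz v d F δ` is the logarithm of the largest of `1` and the numbers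
`|c_j / a|_v^(1/(d-j)) |a|_v^(1/(d-1))`, `j ≤ d - 2`. -/
noncomputable def size {K : Type u} [Field K] [NumberField K] (d : ℕ) (F : K[X]) (δ : K)
    (T : Finset (FinitePlace K)) : InfinitePlace K ⊕ T → ℝ :=
  Sum.elim (fun v : InfinitePlace K => v.mult * siz v.val d F δ) (fun v : T => siz v.1.val d F δ)

lemma henon_eq {K : Type u} [Field K] (F : K[X]) (δ : K) : henon F δ = hen F δ := rfl

lemma fin_add {K : Type u} [Field K] [NumberField K] (v : FinitePlace K) (x y : K) :
    v (x + y) ≤ max (v x) (v y) := by
  have h := pv_add (Sum.inr v : Pl K) x y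
  change v (x + y) ≤ 1 * max (v x) (v y) at h
  rwa [one_mul] at h

lemma fin_sub {K : Type u} [Field K] [NumberField K] (v : FinitePlace K) (x y : K) :
    v (x - y) ≤ max (v x) (v y) := by
  rw [sub_eq_add_neg]
  refine (fin_add v x (-y)).trans (le_of_eq ?_)
  congr 1
  exact v.val.map_neg y

/-- For all `d ≥ 2`, `D`, `H` there is `C` such that the following holds for every number field `K`
of degree at most `D`, every generalized Hénon map `f(x, y) = (y, F(y) - δ x)` of degree `d` over
`K` and every finite set `T` of finite places of `K`. Let `w` be an infinite place or an element of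
`T` such that the height of `δ` is at most `H + s_w / 8`. Let `R ≥ 1` be at least the number of
elements of `T`, or such that the sum of the sizes `s_v` over the infinite places and `T` is at most
`R (1 + s_w)`. If `Y` is a finite set of periodic points of `f` in `K²` such that for every finite
place `v` outside `T` the coordinates of all points on the cycles of the points of `Y` lie in a disc
`{x : |a_d|_v |x - c|_v^(d-1) ≤ 1}`, `c ∈ K`, then `Y` has at most `C (R log (1 + R))²` elements.

(If `a_d` is a `T`-integer, this applies, with `c = 0`, to all the periodic points whose cycles are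
`T`-integral.) -/
theorem result (d : ℕ) (hd : 2 ≤ d) (D : ℕ) (H : ℝ) : ∃ C : ℝ, 0 < C ∧
    ∀ (K : Type u) [Field K] [NumberField K], Module.finrank ℚ K ≤ D →
    ∀ (F : K[X]) (δ : K), F.natDegree = d → δ ≠ 0 → ∀ (T : Finset (FinitePlace K))
      (w : InfinitePlace K ⊕ T), Height.logHeight₁ δ ≤ H + size d F δ T w / 8 →
      ∀ R : ℝ, 1 ≤ R → ((T.card : ℝ) ≤ R ∨ ∑ v, size d F δ T v ≤ R * (1 + size d F δ T w)) →
        ∀ Y : Finset (K × K), (∀ P ∈ Y, Periodic F δ P) →
          (∀ v : FinitePlace K, v ∉ T → ∃ c : K, ∀ P ∈ Y, ∀ k : ℕ,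
            v (F.coeff d) * v (((henon F δ)^[k] P).1 - c) ^ (d - 1) ≤ 1) →
          (Y.card : ℝ) ≤ C * (R * log (1 + R)) ^ 2 := by
  obtain ⟨C, hC, hmain⟩ := Pool.Agent.TH873.HI.main_bound'.{u} d hd D H
  refine ⟨C, hC, ?_⟩
  intro K _ _ hfin F δ hF hδ T w hw R hR hR' Y hY hYT
  refine hmain K hfin F δ hF hδ T R hR w hw ?_ Y hY ?_
  · rcases hR' with h | h
    · exact Or.inl h
    · refine Or.inr ?_
      have e : ∑ v, size d F δ T v = ∑ v : InfinitePlace K, v.mult * siz v.val d F δ +
          ∑ v ∈ T, siz v.val d F δ := by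
        rw [Fintype.sum_sum_type]
        congr 1
        rw [← Finset.sum_coe_sort T (fun v => siz v.val d F δ)]
        rfl
      rw [← e]
      exact h
  · intro v hv P hP Q hQ k
    obtain ⟨c, hc⟩ := hYT v hv
    have h1 := hc P hP k
    have h2 := hc Q hQ 0
    rw [Function.iterate_zero, id_eq] at h2
    have h3 : v (((hen F δ)^[k] P).1 - Q.1) ≤
        max (v (((henon F δ)^[k] P).1 - c)) (v (Q.1 - c)) := by
      have : ((hen F δ)^[k] P).1 - Q.1 = (((henon F δ)^[k] P).1 - c) - (Q.1 - c) := by
        rw [henon_eq]
        ring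
      rw [this]
      exact fin_sub v _ _
    have h0 : 0 ≤ v (((hen F δ)^[k] P).1 - Q.1) := apply_nonneg v _
    have h4 : 0 ≤ v (F.coeff d) := apply_nonneg v _
    rcases le_total (v (((henon F δ)^[k] P).1 - c)) (v (Q.1 - c)) with h | h
    · rw [max_eq_right h] at h3
      exact (mul_le_mul_of_nonneg_left (pow_le_pow_left₀ h0 h3 _) h4).trans h2
    · rw [max_eq_left h] at h3
      exact (mul_le_mul_of_nonneg_left (pow_le_pow_left₀ h0 h3 _) h4).trans h1

end Pool.Agent.Results.MP_0e6b5f_nt.TIntegralCycles
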